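import Mathlib

namespace Pool.Agent.Results.MP_062ce2_co.Counter

open Finset MvPolynomial

section Defs

variable {V E : Type} [Fintype V] [DecidableEq V] [Fintype E] [DecidableEq E]

/-- A multigraph with vertices V and edges E is given by the map sending an edge to its ends.
The adjacency relation of the spanning subgraph (V, A). -/
def span (G : E → Sym2 V) (A : Finset E) : SimpleGraph V :=
  SimpleGraph.fromEdgeSet (G '' (A : Set E))

open Classical in
/-- The vertex sets of the connected components of (V, A). -/
noncomputable def comps (G : E → Sym2 V) (A : Finset E) : Finset (Finset V) :=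
  univ.image fun v => univ.filter fun w => (span G A).Reachable v w

/-- The U-polynomial: x i is X (some i), y is X none, r(A) = |V| - k(A). -/
noncomputable def U (G : E → Sym2 V) : MvPolynomial (Option ℕ) ℤ :=
  ∑ A : Finset E, (∏ C ∈ comps G A, X (some C.card)) *
    (X none - 1) ^ (A.card - (Fintype.card V - (comps G A).card))

/-- The strong U-polynomial: z i j is X (i, j). -/
noncomputable def SU (G : E → Sym2 V) : MvPolynomial (ℕ × ℕ) ℤ :=
  ∑ A : Finset E, ∏ C ∈ comps G A,
    X (C.card, (A.filter fun e => ∀ v ∈ G e, v ∈ C).card + 1 - C.card)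

/-- Isomorphism of multigraphs. -/
def Iso {V' E' : Type} (G : E → Sym2 V) (H : E' → Sym2 V') : Prop :=
  ∃ (φ : V ≃ V') (ψ : E ≃ E'), ∀ e, H (ψ e) = (G e).map φ

end Defs

abbrev P := Fin 9 → Fin 6 × Fin 6

def gr (p : P) : Fin 9 → Sym2 (Fin 6) := fun e => s((p e).1, (p e).2)

def toF (n m : ℕ) : Finset (Fin n) := univ.filter fun e => m.testBit e

def frM (A : Finset (Fin 9)) : ℕ := ∑ e ∈ A, 2 ^ (e : ℕ)

def force (n : ℕ) (k : ℕ → ℕ) : ℕ := Nat.casesOn n (k 0) (fun n => k (n + 1))

theorem force_eq (n : ℕ) (k : ℕ → ℕ) : force n k = k n := by cases n <;> rfl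

def grow (p : P) (m : ℕ) : List (Fin 9) → ℕ → ℕ
  | [], S => S
  | e :: l, S => force
      (if m.testBit e && (S.testBit (p e).1 || S.testBit (p e).2) then
        S ||| 2 ^ ((p e).1 : ℕ) ||| 2 ^ ((p e).2 : ℕ) else S) (grow p m l)

def LL : List (Fin 9) :=
  List.finRange 9 ++ List.finRange 9 ++ List.finRange 9 ++ List.finRange 9 ++ List.finRange 9

def cl (p : P) (m : ℕ) (v : Fin 6) : ℕ := grow p m LL (2 ^ (v : ℕ))

theorem adj_of (p : P) (hp : ∀ e, (p e).1 ≠ (p e).2) (m : ℕ) (e : Fin 9)
    (he : m.testBit e = true) : (span (gr p) (toF 9 m)).Adj (p e).1 (p e).2 := by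
  unfold span
  rw [SimpleGraph.fromEdgeSet_adj]
  exact ⟨⟨e, by simp [toF, he], rfl⟩, hp e⟩

theorem grow_sound (p : P) (hp : ∀ e, (p e).1 ≠ (p e).2) (m : ℕ) (v : Fin 6) :
    ∀ (l : List (Fin 9)) (S : ℕ),
      (∀ w : Fin 6, S.testBit w = true → (span (gr p) (toF 9 m)).Reachable v w) →
      ∀ w : Fin 6, (grow p m l S).testBit w = true → (span (gr p) (toF 9 m)).Reachable v w
  | [], S, h => h
  | e :: l, S, h => by
    unfold grow
    rw [force_eq]
    apply grow_sound p hp m v l
    split_ifs with hc
    · simp only [Bool.and_eq_true, Bool.or_eq_true] at hc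
      have ha := (adj_of p hp m e hc.1).reachable
      have h1 : (span (gr p) (toF 9 m)).Reachable v (p e).1 := by
        rcases hc.2 with h1 | h1
        · exact h _ h1
        · exact (h _ h1).trans ha.symm
      intro w hw
      simp only [Nat.testBit_or, Bool.or_eq_true, Nat.testBit_two_pow, decide_eq_true_eq] at hw
      rcases hw with (hw | hw) | hw
      · exact h w hw
      · rw [← Fin.ext hw]; exact h1
      · rw [← Fin.ext hw]; exact h1.trans ha
    · exact h

def Closed (p : P) : Prop := ∀ m < 512, ∀ v : Fin 6, (cl p m v).testBit v = true ∧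
  ∀ e : Fin 9, m.testBit e = true → (cl p m v).testBit (p e).1 = (cl p m v).testBit (p e).2

instance (p : P) : Decidable (Closed p) := by unfold Closed; infer_instance

def cc (p : P) (m : ℕ) : Finset (Finset (Fin 6)) := univ.image fun v => toF 6 (cl p m v)

theorem comps_eq (p : P) (hp : ∀ e, (p e).1 ≠ (p e).2) (hc : Closed p) (m : ℕ) (hm : m < 512) :
    comps (gr p) (toF 9 m) = cc p m := by
  unfold comps cc
  congr 1
  funext v
  ext w
  simp only [mem_filter, mem_univ, true_and, toF]
  constructor
  · intro h
    rw [SimpleGraph.reachable_iff_reflTransGen] at h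
    induction h with
    | refl => exact (hc m hm v).1
    | tail _ hab ih =>
      unfold span at hab
      rw [SimpleGraph.fromEdgeSet_adj] at hab
      obtain ⟨⟨e, he, hs⟩, -⟩ := hab
      have he' : m.testBit e = true := by simpa using he
      have := (hc m hm v).2 e he'
      unfold gr at hs
      rcases Sym2.eq_iff.1 hs with ⟨h1, h2⟩ | ⟨h1, h2⟩
      · rw [← h2, ← this, h1]; exact ih
      · rw [← h1, this, h2]; exact ih
  · apply grow_sound p hp m v
    intro w hw
    simp only [Nat.testBit_two_pow, decide_eq_true_eq] at hw
    rw [← Fin.ext hw]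

theorem sum_toF {M : Type*} [AddCommMonoid M] (F : Finset (Fin 9) → M) :
    ∑ A, F A = ∑ m ∈ range 512, F (toF 9 m) := by
  have h1 : ∀ A : Finset (Fin 9), frM A < 512 ∧ toF 9 (frM A) = A := by decide +kernel
  have h2 : ∀ m < 512, frM (toF 9 m) = m := by decide +kernel
  exact sum_nbij' frM (toF 9) (fun A _ => mem_range.2 (h1 A).1) (fun _ _ => mem_univ _)
    (fun A _ => (h1 A).2) (fun m hm => h2 m (mem_range.1 hm)) (fun A _ => by rw [(h1 A).2])

def key (p : P) (m : ℕ) : Multiset ℕ × ℕ :=
  ((cc p m).val.map card, (toF 9 m).card - (6 - (cc p m).card))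

noncomputable def gU (k : Multiset ℕ × ℕ) : MvPolynomial (Option ℕ) ℤ :=
  (k.1.map fun i => X (some i)).prod * (X none - 1) ^ k.2

theorem U_eq (p : P) (hp : ∀ e, (p e).1 ≠ (p e).2) (hc : Closed p) :
    U (gr p) = ∑ m ∈ range 512, gU (key p m) := by
  unfold U
  rw [sum_toF]
  refine sum_congr rfl fun m hm => ?_
  rw [comps_eq p hp hc m (mem_range.1 hm)]
  simp only [gU, key, Multiset.map_map, Function.comp_def, Fintype.card_fin]
  rfl

def f (k : ℕ × ℕ) : ℤ := if k = (4, 1) then 2 else if k = (2, 0) then 2 else 1

def val (p : P) : ℤ := ∑ m ∈ range 512, ∏ C ∈ cc p m,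
  f (C.card, ((toF 9 m).filter fun e => (p e).1 ∈ C ∧ (p e).2 ∈ C).card + 1 - C.card)

theorem SU_eq (p : P) (hp : ∀ e, (p e).1 ≠ (p e).2) (hc : Closed p) :
    eval f (SU (gr p)) = val p := by
  unfold SU val
  rw [sum_toF, map_sum]
  refine sum_congr rfl fun m hm => ?_
  rw [comps_eq p hp hc m (mem_range.1 hm), map_prod]
  refine prod_congr rfl fun C _ => ?_
  rw [eval_X]
  congr 5
  ext e
  simp [gr]

def p1 : P := ![(0, 1), (0, 2), (0, 2), (0, 3), (0, 4), (1, 3), (1, 4), (1, 5), (2, 3)]
def p2 : P := ![(0, 1), (0, 2), (0, 2), (0, 3), (0, 5), (1, 2), (1, 3), (1, 4), (3, 4)]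

def sg (m : ℕ) : ℕ := (13989277335632848088149702311725981764332091254550090435709474730959256470235011821311318996935728285600914610810864846390706596743832645791104794673635312593813725202397768554119252539342766923775862013838278920440388830166005910665864568073228595846456311349774371836385878413444836024993298561995573198933343084309925992333401108965808580128628379771131552634221915155547233667322415421197062074043383594536791893255657483858301111567136889134178059700808822802104213891272778420408028912019107065704182811117007344818794337419328054852838091155926906905684382686544407495308965654411676392225053936215683990160771899590090463395107505890377191901917264580910373368873422345563006395882285655558466766121053473830126449891667974476946152649755298582212231004488669928862209663246092450339613370607317681115228809537438988836002028537243905587595999927617650992283553354676953848764923167019849256537928802447482625412491563791929938425347377492634344284065853219268232827779448286485589024413375659336267771896089399959768173204834957944461800907031573920446232185706114519437285194049840327517389358223784829306117465144144798184319109428986116566589002111308433693809790622045483709114796888554515164290594266499743953554300302910471440904404492678253291421548602558143601748759518144435953780378707238161329654954769270932730878077066668910354850245195401654337845956376074333061120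 >>> (9 * m)) % 512

def ta (m : ℕ) : ℕ := (13989284012779871607105607971127259455007009164399870127949825490342888486145252113271433768062547820106465685752645863623207055934996427135764325941266609003659821872897560662703991146135555291676753520810989827015455664239117840639014133367458243160371708468736085549096144520770200676856823927828300908446937127579850077367666787844751161475268447323358211430591468632978674580843911288981798562905321048015853069644198901447014951484564791093041618498495628329822661236089869317464564858404600925322609187758742768007178915904901833483969289180610054475779865869607681698157290173953928128196663323182243609992106826190705414964162496131523996325555098527100248087870749928654018744584744311702497407235384967066539823548799963540811936514329365966584821374755241834618106132363186637453977775824959647947390607989806046972339148658410159262786059966198188020526744397063565942320196871160930390534699609542950626532610139336415224570813002159815228117570353840354359395858815517841563457153052735024978761597579427483957181430501894685663712781296612800311393042107774057485220749150752526441799966844956556613797182640164323199922716348138878997000368094871869337004430480672215556141819306984332001819778420817360538350730116719225073354612976105686647484263127138898165742597452715795711207163060443916885747512105900232610553785580008185029269036277660634382616875955375648669696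 >>> (9 * m)) % 512

theorem h1 : ∀ e, (p1 e).1 ≠ (p1 e).2 := by decide
theorem h2 : ∀ e, (p2 e).1 ≠ (p2 e).2 := by decide
theorem c1 : Closed p1 := by decide +kernel
theorem c2 : Closed p2 := by decide +kernel

theorem not_iso : ¬ Iso (gr p1) (gr p2) := by
  rintro ⟨φ, ψ, h⟩
  have a1 : ∀ e e' : Fin 9, e ≠ e' → gr p2 e = gr p2 e' → gr p2 e = s(0, 2) := by decide
  have a2 : s(φ 0, φ 2) = s(0, 2) := by
    have := a1 (ψ 1) (ψ 2) (ψ.injective.ne (by decide)) (by rw [h, h]; rfl)
    rw [h] at this
    exact this
  have a3 : ∀ a0 a2 : Fin 6, s(a0, a2) = s(0, 2) → ∀ a3, (∃ e, gr p2 e = s(a0, a3)) →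
      (∃ e, gr p2 e = s(a2, a3)) → ∀ a1, a1 ≠ a2 → (∃ e, gr p2 e = s(a0, a1)) →
      (∃ e, gr p2 e = s(a1, a3)) → ∀ a4, a4 ≠ a3 → a4 ≠ a2 → (∃ e, gr p2 e = s(a0, a4)) →
      (∃ e, gr p2 e = s(a1, a4)) → False := by decide +kernel
  exact a3 _ _ a2 (φ 3) ⟨_, h 3⟩ ⟨_, h 8⟩ (φ 1) (φ.injective.ne (by decide)) ⟨_, h 0⟩ ⟨_, h 5⟩
    (φ 4) (φ.injective.ne (by decide)) (φ.injective.ne (by decide)) ⟨_, h 4⟩ ⟨_, h 6⟩

theorem result : ∃ G H : Fin 9 → Sym2 (Fin 6), (∀ e, ¬ (G e).IsDiag) ∧ (∀ e, ¬ (H e).IsDiag) ∧
    ¬ Iso G H ∧ U G = U H ∧ SU G ≠ SU H := by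
  refine ⟨gr p1, gr p2, fun e => by simpa [gr] using h1 e, fun e => by simpa [gr] using h2 e,
    not_iso, ?_, fun h => ?_⟩
  · rw [U_eq p1 h1 c1, U_eq p2 h2 c2]
    have k1 : ∀ m < 512, key p2 (sg m) = key p1 m := by decide +kernel
    have k2 : ∀ m < 512, ta (sg m) = m ∧ sg (ta m) = m := by decide +kernel
    exact sum_nbij' sg ta (fun m _ => mem_range.2 (Nat.mod_lt _ (by norm_num)))
      (fun m _ => mem_range.2 (Nat.mod_lt _ (by norm_num)))
      (fun m hm => (k2 m (mem_range.1 hm)).1) (fun m hm => (k2 m (mem_range.1 hm)).2)
      (fun m hm => by rw [k1 m (mem_range.1 hm)])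
  · have k : val p1 ≠ val p2 := by decide +kernel
    exact k (by rw [← SU_eq p1 h1 c1, ← SU_eq p2 h2 c2, h])

end Pool.Agent.Results.MP_062ce2_co.Counter
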